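import Pool.Agent.Helper96.OP.Defs2

/-!
# MP_2214fc_al, module Q1a: equalities of automorphisms of `FreeGroup (Fin n)`
-/

set_option autoImplicit false

open Finset
open Pool.Agent.Helper96.OP

namespace Pool.Agent.Helper28.OP

variable {n : ℕ} [NeZero n]

lemma Psi_of_zero (π : Equiv.Perm (Fin n)) :
    Psi π (FreeGroup.of 0) = FreeGroup.of 0 := homPsi_zero π

lemma Psi_leg (π : Equiv.Perm (Fin n)) (j : Fin n) :
    Psi π (leg j) = leg (π j) * (leg (π 0))⁻¹ := homPsi_leg π j

lemma leg_zero : leg (0 : Fin n) = 1 := by simp [leg]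

lemma leg_ne {j : Fin n} (h : j ≠ 0) : leg j = FreeGroup.of j := by simp [leg, h]

lemma Psi_of (π : Equiv.Perm (Fin n)) {j : Fin n} (hj : j ≠ 0) :
    Psi π (FreeGroup.of j) = leg (π j) * (leg (π 0))⁻¹ := by
  rw [← leg_ne hj, Psi_leg]

lemma cir_fst : (cir : Ltr (Fin n)).1 = 0 := rfl

lemma el_cir : el (cir : Ltr (Fin n)) = FreeGroup.of 0 := rfl

lemma ap_mm (x : Ltr (Fin n)) : ap mm x = if x.1 = 0 then inv x else x := by
  obtain ⟨i, b⟩ := x
  by_cases h : i = 0
  · subst h
    cases b <;> simp [mm, sw_app, swFun, cir, inv]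
  · cases b <;> simp [mm, sw_app, swFun, cir, inv, h]

lemma autW_mm_el (x : Ltr (Fin n)) : autW mm (el x) = el (if x.1 = 0 then inv x else x) := by
  rw [autW_el, ap_mm]

lemma autW_mm_zero : autW mm (FreeGroup.of (0 : Fin n)) = (FreeGroup.of 0)⁻¹ := by
  rw [← el_true, autW_mm_el, if_pos rfl, el_inv]

lemma autW_mm_of {j : Fin n} (hj : j ≠ 0) : autW mm (FreeGroup.of j) = FreeGroup.of j := by
  rw [← el_true, autW_mm_el, if_neg hj]

lemma autW_mm_leg (j : Fin n) : autW mm (leg j) = leg j := by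
  by_cases hj : j = 0
  · subst hj
    rw [leg_zero, map_one]
  · rw [leg_ne hj, autW_mm_of hj]

/-- The exponents in `Th k`. -/
def FT (k : ℕ) (x : Ltr (Fin n)) : ℤ := if x.2 = true ∧ x.1 ≠ 0 ∧ (x.1 : ℕ) ≤ k then 1 else 0

lemma Th_def (k : ℕ) : (Th k : MulAut (FreeGroup (Fin n))) = tw cir (FT k) * autW mm := rfl

lemma FT_false (k : ℕ) (i : Fin n) : FT k (i, false) = 0 := by simp [FT]

lemma FT_zero (k : ℕ) (b : Bool) : FT k ((0 : Fin n), b) = 0 := by simp [FT]

/-- The exponent of a leg. -/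
lemma tw_FT_leg (k : ℕ) (j : Fin n) :
    tw cir (FT k) (leg j) = el cir ^ FT k (j, true) * leg j := by
  by_cases hj : j = 0
  · subst hj
    rw [leg_zero, map_one, FT_zero]
    simp
  · rw [leg_ne hj, ← el_true, tw_el, if_neg (by simpa [cir_fst] using hj)]
    show _ * _ * el cir ^ (-FT k (inv (j, true))) = _
    have : inv (j, true) = (j, false) := rfl
    rw [this, FT_false]
    simp

lemma tw_FT_cir (k : ℕ) : tw cir (FT k) (el (cir : Ltr (Fin n))) = el cir := by
  rw [tw_el, if_pos rfl]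

lemma Th_cir (k : ℕ) : Th k (FreeGroup.of (0 : Fin n)) = (FreeGroup.of 0)⁻¹ := by
  rw [Th_def, MulAut.mul_apply, autW_mm_zero, map_inv, ← el_cir, tw_FT_cir]

lemma Th_leg (k : ℕ) (j : Fin n) : Th k (leg j) = el cir ^ FT k (j, true) * leg j := by
  rw [Th_def, MulAut.mul_apply, autW_mm_leg, tw_FT_leg]

lemma Th_el (k : ℕ) {x : Ltr (Fin n)} (hx : x.1 ≠ 0) :
    Th k (el x) = el cir ^ FT k x * el x * el cir ^ (-FT k (inv x)) := by
  rw [Th_def, MulAut.mul_apply, autW_mm_el, if_neg hx, tw_el, if_neg (by simpa [cir_fst] using hx)]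

theorem Psi_eq_autW (π : Equiv.Perm (Fin n)) (h : π 0 = 0) : Psi π = autW (permW π) := by
  apply aut_ext
  intro i
  have hap : ap (permW π) (i, true) = (π i, true) := rfl
  rw [autW_of, hap, el_true]
  by_cases hi : i = 0
  · subst hi
    rw [Psi_of_zero, h]
  · have hπ : π i ≠ 0 := fun h' => hi (π.injective (by rw [h', h]))
    rw [Psi_of π hi, h, leg_zero, leg_ne hπ]
    simp

theorem mm_Psi (π : Equiv.Perm (Fin n)) : autW mm * Psi π = Psi π * autW mm := by
  apply aut_ext
  intro i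
  rw [MulAut.mul_apply, MulAut.mul_apply]
  by_cases hi : i = 0
  · subst hi
    rw [Psi_of_zero, autW_mm_zero, map_inv, Psi_of_zero]
  · rw [autW_mm_of hi, Psi_of π hi, map_mul, map_inv, autW_mm_leg, autW_mm_leg]

lemma tv_cir (i : Fin n) : tv (i, true) cir (FreeGroup.of 0) = FreeGroup.of 0 := by
  rw [← el_true, tv, tw_el, if_pos (show ((0, true) : Ltr (Fin n)).1 = cir.1 from rfl)]

lemma tv_leg {i : Fin n} (hi : i ≠ 0) (j : Fin n) :
    tv (i, true) cir (leg j) = if j = i then el cir * leg j else leg j := by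
  by_cases hj : j = 0
  · subst hj
    rw [leg_zero, map_one, if_neg (Ne.symm hi)]
  · rw [leg_ne hj, ← el_true, tv, tw_el, if_neg (by simpa [cir_fst] using hj)]
    by_cases hij : j = i
    · subst hij
      rw [if_pos rfl, Pi.single_eq_same]
      have : inv ((j, true) : Ltr (Fin n)) = (j, false) := rfl
      rw [this, Pi.single_eq_of_ne (by simp)]
      simp
    · rw [if_neg hij, Pi.single_eq_of_ne (by simpa using hij)]
      have : inv ((j, true) : Ltr (Fin n)) = (j, false) := rfl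
      rw [this, Pi.single_eq_of_ne (by simp)]
      simp

theorem Psi_tv (π : Equiv.Perm (Fin n)) (i : Fin n) (hi : i ≠ 0) (h : π i ≠ 0) :
    Psi π * tv (i, true) cir * (Psi π)⁻¹ = tv (π i, true) cir := by
  rw [mul_inv_eq_iff_eq_mul]
  apply aut_ext
  intro j
  rw [MulAut.mul_apply, MulAut.mul_apply]
  by_cases hj : j = 0
  · subst hj
    rw [tv_cir, Psi_of_zero, tv_cir]
  · rw [Psi_of π hj, map_mul, map_inv, tv_leg h, tv_leg h, ← leg_ne hj, tv_leg hi]
    have h0 : ¬ (π 0 = π i) := fun h' => hi (π.injective h').symm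
    rw [if_neg h0]
    by_cases hji : j = i
    · subst hji
      rw [if_pos rfl, if_pos rfl, map_mul, Psi_leg, el_cir, Psi_of_zero, mul_assoc]
    · have h1 : ¬ (π j = π i) := fun h' => hji (π.injective h')
      rw [if_neg hji, if_neg h1, Psi_leg]

theorem Th_zero : (Th 0 : MulAut (FreeGroup (Fin n))) = autW mm := by
  rw [Th_def]
  have : (FT 0 : Ltr (Fin n) → ℤ) = 0 := by
    funext x
    simp only [FT, Pi.zero_apply, ite_eq_right_iff, one_ne_zero, imp_false]
    rintro ⟨-, h1, h2⟩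
    apply h1
    ext
    simpa using h2
  rw [this, tw_zero, one_mul]

lemma val_one (hn : 2 ≤ n) : ((Fin.ofNat n 1 : Fin n) : ℕ) = 1 := by
  rw [Fin.val_ofNat]
  exact Nat.mod_eq_of_lt (by omega)

lemma FT_one (hn : 2 ≤ n) (x : Ltr (Fin n)) :
    FT 1 x = if x = (Fin.ofNat n 1, true) then 1 else 0 := by
  obtain ⟨i, b⟩ := x
  unfold FT
  congr 1
  apply propext
  constructor
  · rintro ⟨h1, h2, h3⟩
    simp only at h1 h2 h3
    have h4 : (i : ℕ) ≠ 0 := fun h => h2 (by ext; simpa using h)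
    have h5 : i = Fin.ofNat n 1 := by
      ext
      rw [val_one hn]
      omega
    rw [h5, h1]
  · intro h
    have h1 := congrArg Prod.fst h
    have h2 := congrArg Prod.snd h
    simp only at h1 h2
    have hv : (i : ℕ) = 1 := by rw [h1, val_one hn]
    refine ⟨h2, ?_, by simp [hv]⟩
    intro h0
    simp only at h0
    rw [h0] at hv
    simp at hv

theorem Th_one (hn : 2 ≤ n) :
    (Th 1 : MulAut (FreeGroup (Fin n))) = tv (Fin.ofNat n 1, true) cir * autW mm := by
  rw [Th_def, tv]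
  congr 2
  funext x
  rw [FT_one hn, Pi.single_apply]

theorem Th_sq (k : ℕ) : (Th k : MulAut (FreeGroup (Fin n))) * Th k = 1 := by
  apply aut_ext
  intro i
  rw [MulAut.mul_apply, MulAut.one_apply]
  by_cases hi : i = 0
  · subst hi
    rw [Th_cir, map_inv, Th_cir, _root_.inv_inv]
  · rw [← leg_ne hi, Th_leg, map_mul, map_zpow, Th_leg, el_cir, Th_cir]
    rw [← mul_assoc, inv_zpow', ← zpow_add]
    simp

theorem Th_Psi (k : ℕ) (π : Equiv.Perm (Fin n))
    (h : ∀ j : Fin n, (j ≠ 0 ∧ (j : ℕ) ≤ k) ↔ (π j ≠ 0 ∧ (π j : ℕ) ≤ k)) :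
    Th k * Psi π = Psi π * Th k := by
  have hF : ∀ j : Fin n, FT k (π j, true) = FT k (j, true) := by
    intro j
    unfold FT
    congr 1
    apply propext
    simpa using (h j).symm
  have hF0 : FT k (π 0, true) = 0 := by rw [hF, FT_zero]
  apply aut_ext
  intro i
  rw [MulAut.mul_apply, MulAut.mul_apply]
  by_cases hi : i = 0
  · subst hi
    rw [Psi_of_zero, Th_cir, map_inv, Psi_of_zero]
  · rw [← leg_ne hi, Psi_leg, map_mul, map_inv, Th_leg, Th_leg, Th_leg, hF, hF0, map_mul, map_zpow,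
      Psi_leg, el_cir, Psi_of_zero]
    simp [mul_assoc]

theorem rf_pres (k : ℕ) (hk : k < n) (j : Fin n) :
    (j ≠ 0 ∧ (j : ℕ) ≤ k) ↔ (rf k j ≠ 0 ∧ (rf k j : ℕ) ≤ k) := by
  have h0 : ∀ i : Fin n, i ≠ 0 ↔ (i : ℕ) ≠ 0 := by
    intro i
    rw [Ne, Fin.ext_iff]
    simp
  rw [h0, h0]
  have hv : ((rf k j : Fin n) : ℕ) = ((n - (j : ℕ)) + (k + 1) % n) % n := by
    simp [rf, Equiv.subLeft, Fin.sub_def]
  rw [hv]
  have hj := j.2
  have hn : 0 < n := by omega
  rcases Nat.lt_or_ge (k + 1) n with h1 | h1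
  · rw [Nat.mod_eq_of_lt h1]
    rcases Nat.lt_or_ge (n - (j : ℕ) + (k + 1)) n with h2 | h2
    · rw [Nat.mod_eq_of_lt h2]
      omega
    · rw [Nat.mod_eq_sub_mod h2]
      rcases Nat.lt_or_ge (n - (j : ℕ) + (k + 1) - n) n with h3 | h3
      · rw [Nat.mod_eq_of_lt h3]
        omega
      · omega
  · have h2 : k + 1 = n := by omega
    rw [h2, Nat.mod_self, Nat.add_zero]
    rcases Nat.eq_zero_or_pos (j : ℕ) with h3 | h3
    · rw [h3, Nat.sub_zero, Nat.mod_self]
    · rw [Nat.mod_eq_of_lt (by omega)]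
      omega

theorem rf_sq (k : ℕ) : (rf k : Equiv.Perm (Fin n)) * rf k = 1 := by
  apply Equiv.ext
  intro j
  rw [Equiv.Perm.mul_apply]
  simp [rf, Equiv.subLeft]

theorem Th_one_autW (v : W (Fin n)) (h1 : ap v (Fin.ofNat n 1, true) = (Fin.ofNat n 1, true))
    (h2 : ap v cir = cir) : Th 1 * autW v = autW v * Th 1 := by
  apply aut_ext
  intro i
  rw [MulAut.mul_apply, MulAut.mul_apply]
  by_cases hi : i = 0
  · subst hi
    have hc : autW v (FreeGroup.of 0) = FreeGroup.of 0 := by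
      rw [← el_cir, autW_el, h2]
    rw [hc, Th_cir, map_inv, hc]
  · have hn : 2 ≤ n := by
      have h3 := i.2
      have h4 : (i : ℕ) ≠ 0 := fun h => hi (by ext; simpa using h)
      omega
    rw [← el_true, autW_el, Th_el 1 (x := (i, true)) hi]
    set y := ap v (i, true) with hy
    have hy0 : y.1 ≠ 0 := by
      intro h0
      rcases eq_or_eq_inv (x := y) (y := cir) (by rw [h0, cir_fst]) with h | h
      · have : ap v (i, true) = ap v cir := by rw [h2, ← hy, h]
        exact hi (congrArg Prod.fst (ap_injective v this))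
      · have : ap v (i, true) = ap v (inv cir) := by rw [ap_inv, h2, ← hy, h]
        exact hi (congrArg Prod.fst (ap_injective v this))
    have e1 : FT 1 y = FT 1 (i, true) := by
      rw [FT_one hn, FT_one hn]
      congr 1
      apply propext
      constructor
      · intro h
        apply ap_injective v
        rw [h1, ← hy, h]
      · intro h
        rw [hy, h, h1]
    have e2 : FT 1 (inv y) = 0 := by
      rw [FT_one hn, if_neg]
      intro h
      have h3 : ap v (inv (i, true)) = ap v (Fin.ofNat n 1, true) := by rw [ap_inv, h1, ← hy, h]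
      have h4 := congrArg Prod.snd (ap_injective v h3)
      simp [inv] at h4
    have e3 : FT 1 (inv ((i, true) : Ltr (Fin n))) = 0 := FT_false 1 i
    rw [Th_el 1 hy0, e1, e2, e3, map_mul, map_mul, map_zpow, map_zpow, autW_el, autW_el, h2, ← hy]

end Pool.Agent.Helper28.OP
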